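import Mathlib

namespace Pool.Agent.Lib_helper1.IPB

open Finset

/-- Chi square comparison. -/
theorem cs {Ω : Type*} [Fintype Ω] (Q R G : Ω → ℝ) (hQ : ∀ x, 0 ≤ Q x)
    (hR : ∀ x, Q x = 0 → R x = 0) (hQ1 : ∑ x, Q x = 1) (hR1 : ∑ x, R x = 1)
    (h0 : ∑ x, Q x * G x = 0) :
    (∑ x, R x * G x) ^ 2 ≤ (∑ x, R x ^ 2 / Q x - 1) * ∑ x, Q x * G x ^ 2 := by
  have e1 : ∑ x, R x * G x = ∑ x, (R x - Q x) * G x := by
    simp only [sub_mul, Finset.sum_sub_distrib, h0, sub_zero]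
  have e2 : ∑ x, R x ^ 2 / Q x - 1 = ∑ x, (R x - Q x) ^ 2 / Q x := by
    have : ∀ x, (R x - Q x) ^ 2 / Q x = R x ^ 2 / Q x - 2 * R x + Q x := by
      intro x
      by_cases h : Q x = 0
      · rw [hR x h, h]; simp
      · field_simp; ring
    simp only [this, Finset.sum_add_distrib, Finset.sum_sub_distrib, ← Finset.mul_sum, hQ1, hR1]
    ring
  rw [e1, e2]
  apply Finset.sum_sq_le_sum_mul_sum_of_sq_le_mul
  · intro x _; exact div_nonneg (sq_nonneg _) (hQ x)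
  · intro x _; exact mul_nonneg (hQ x) (sq_nonneg _)
  · intro x _
    apply le_of_eq
    by_cases h : Q x = 0
    · rw [hR x h, h]; simp
    · field_simp

variable {ι T : Type*} [Fintype ι] [DecidableEq ι] [Fintype T]

theorem sum1 (f : ι → T → ℝ) : ∑ x : ι → T, ∏ i, f i (x i) = ∏ i, ∑ a, f i a := by
  rw [Finset.prod_univ_sum, Fintype.piFinset_univ]

theorem sum4 (f : ι → T → T → T → T → ℝ) :
    ∑ x : ι → T, ∑ y : ι → T, ∑ z : ι → T, ∑ w : ι → T, ∏ i, f i (x i) (y i) (z i) (w i)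
      = ∏ i, ∑ a, ∑ b, ∑ c, ∑ d, f i a b c d := by
  have h1 : ∀ x y z : ι → T, ∑ w : ι → T, ∏ i, f i (x i) (y i) (z i) (w i)
      = ∏ i, ∑ d, f i (x i) (y i) (z i) d := fun x y z => sum1 (fun i d => f i (x i) (y i) (z i) d)
  have h2 : ∀ x y : ι → T, ∑ z : ι → T, ∏ i, ∑ d, f i (x i) (y i) (z i) d
      = ∏ i, ∑ c, ∑ d, f i (x i) (y i) c d := fun x y =>
    sum1 (fun i c => ∑ d, f i (x i) (y i) c d)
  have h3 : ∀ x : ι → T, ∑ y : ι → T, ∏ i, ∑ c, ∑ d, f i (x i) (y i) c d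
      = ∏ i, ∑ b, ∑ c, ∑ d, f i (x i) b c d := fun x =>
    sum1 (fun i b => ∑ c, ∑ d, f i (x i) b c d)
  simp only [h1, h2, h3]
  exact sum1 (fun i a => ∑ b, ∑ c, ∑ d, f i a b c d)

/-- The box law against the product law. -/
theorem box (P : ι → T → ℝ) (R : ι → T → T → T → T → ℝ) (ρ : ι → ℝ)
    (hP : ∀ i t, 0 ≤ P i t) (hP1 : ∀ i, ∑ t, P i t = 1)
    (hPR : ∀ i a b c d, P i a * P i b * P i c * P i d = 0 → R i a b c d = 0)
    (hR1 : ∀ i, ∑ a, ∑ b, ∑ c, ∑ d, R i a b c d = 1)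
    (hρ : ∀ i, ∑ a, ∑ b, ∑ c, ∑ d, R i a b c d ^ 2 / (P i a * P i b * P i c * P i d) ≤ 1 + ρ i)
    (F : (ι → T) → ℝ) (hF : ∑ x, (∏ i, P i (x i)) * F x = 0) :
    (∑ x, ∑ y, ∑ z, ∑ w, (∏ i, R i (x i) (y i) (z i) (w i)) * (F x * F y * F z * F w)) ^ 2
      ≤ (∏ i, (1 + ρ i) - 1) * (∑ x, (∏ i, P i (x i)) * F x ^ 2) ^ 4 := by
  classical
  set Ω := (ι → T) × (ι → T) × (ι → T) × (ι → T) with hΩ
  have red : ∀ g : (ι → T) → (ι → T) → (ι → T) → (ι → T) → ℝ,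
      ∑ x, ∑ y, ∑ z, ∑ w, g x y z w = ∑ p : Ω, g p.1 p.2.1 p.2.2.1 p.2.2.2 := by
    intro g
    rw [Fintype.sum_prod_type]
    refine Finset.sum_congr rfl fun x _ => ?_
    rw [Fintype.sum_prod_type]
    refine Finset.sum_congr rfl fun y _ => ?_
    rw [Fintype.sum_prod_type]
  let Q : Ω → ℝ := fun p => ∏ i, (P i (p.1 i) * P i (p.2.1 i) * P i (p.2.2.1 i) * P i (p.2.2.2 i))
  let RR : Ω → ℝ := fun p => ∏ i, R i (p.1 i) (p.2.1 i) (p.2.2.1 i) (p.2.2.2 i)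
  let G : Ω → ℝ := fun p => F p.1 * F p.2.1 * F p.2.2.1 * F p.2.2.2
  have hQ0 : ∀ p, 0 ≤ Q p := fun p => Finset.prod_nonneg fun i _ => by
    have := hP i; have h1 := this (p.1 i); have h2 := this (p.2.1 i)
    have h3 := this (p.2.2.1 i); have h4 := this (p.2.2.2 i); positivity
  have hRR : ∀ p, Q p = 0 → RR p = 0 := by
    intro p hp
    obtain ⟨i, hi, h⟩ := Finset.prod_eq_zero_iff.mp hp
    exact Finset.prod_eq_zero hi (hPR i _ _ _ _ h)
  have hQ1 : ∑ p, Q p = 1 := by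
    have := red (fun x y z w => ∏ i, (P i (x i) * P i (y i) * P i (z i) * P i (w i)))
    rw [← this, sum4 (fun i a b c d => P i a * P i b * P i c * P i d)]
    refine Finset.prod_eq_one fun i _ => ?_
    simp only [← Finset.mul_sum, hP1, mul_one]
  have hR1' : ∑ p, RR p = 1 := by
    have := red (fun x y z w => ∏ i, R i (x i) (y i) (z i) (w i))
    rw [← this, sum4 (fun i a b c d => R i a b c d)]
    exact Finset.prod_eq_one fun i _ => hR1 i
  have fact : ∀ H : (ι → T) → ℝ, ∑ p : Ω, Q p * (H p.1 * H p.2.1 * H p.2.2.1 * H p.2.2.2)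
      = (∑ x, (∏ i, P i (x i)) * H x) ^ 4 := by
    intro H
    have := red (fun x y z w => (∏ i, (P i (x i) * P i (y i) * P i (z i) * P i (w i)))
      * (H x * H y * H z * H w))
    rw [← this]
    have e : ∀ x y z w : ι → T, (∏ i, (P i (x i) * P i (y i) * P i (z i) * P i (w i)))
      * (H x * H y * H z * H w) = ((∏ i, P i (x i)) * H x) * (((∏ i, P i (y i)) * H y) *
        (((∏ i, P i (z i)) * H z) * ((∏ i, P i (w i)) * H w))) := by
      intro x y z w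
      simp only [Finset.prod_mul_distrib]
      ring
    simp only [e, ← Finset.mul_sum, ← Finset.sum_mul]
    ring
  have h0 : ∑ p, Q p * G p = 0 := by
    rw [fact F, hF]; simp
  have key := cs Q RR G hQ0 hRR hQ1 hR1' h0
  have e1 : ∑ p, RR p * G p
      = ∑ x, ∑ y, ∑ z, ∑ w, (∏ i, R i (x i) (y i) (z i) (w i)) * (F x * F y * F z * F w) :=
    (red (fun x y z w => (∏ i, R i (x i) (y i) (z i) (w i)) * (F x * F y * F z * F w))).symm
  have e2 : ∑ p, RR p ^ 2 / Q p ≤ ∏ i, (1 + ρ i) := by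
    have h := red (fun x y z w => ∏ i, (R i (x i) (y i) (z i) (w i) ^ 2 /
      (P i (x i) * P i (y i) * P i (z i) * P i (w i))))
    have h' : ∀ p : Ω, RR p ^ 2 / Q p = ∏ i, (R i (p.1 i) (p.2.1 i) (p.2.2.1 i) (p.2.2.2 i) ^ 2 /
      (P i (p.1 i) * P i (p.2.1 i) * P i (p.2.2.1 i) * P i (p.2.2.2 i))) := by
      intro p
      simp only [RR, Q, Finset.prod_div_distrib, Finset.prod_pow]
    simp only [h']
    rw [← h, sum4 (fun i a b c d => R i a b c d ^ 2 / (P i a * P i b * P i c * P i d))]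
    refine Finset.prod_le_prod (fun i _ => ?_) (fun i _ => hρ i)
    refine Finset.sum_nonneg fun a _ => Finset.sum_nonneg fun b _ => Finset.sum_nonneg fun c _ =>
      Finset.sum_nonneg fun d _ => ?_
    have h1 := hP i a; have h2 := hP i b; have h3 := hP i c; have h4 := hP i d
    positivity
  have e3 : ∑ p, Q p * G p ^ 2 = (∑ x, (∏ i, P i (x i)) * F x ^ 2) ^ 4 := by
    rw [← fact (fun x => F x ^ 2)]
    refine Finset.sum_congr rfl fun p _ => ?_
    simp only [G]; ring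
  rw [e1, e3] at key
  refine key.trans (mul_le_mul_of_nonneg_right (by linarith) ?_)
  exact pow_nonneg (Finset.sum_nonneg fun x _ =>
    mul_nonneg (Finset.prod_nonneg fun i _ => hP i _) (sq_nonneg _)) _

end Pool.Agent.Lib_helper1.IPB
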